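import Pool.Agent.helper64.PB.SpecB

set_option autoImplicit false

namespace Pool.Agent.PB

lemma CSE_gate {G : Set Gate} {g : Gate} (hg : g ∈ G) : InCl G g.2 :=
  ⟨1, [fun x => g.2 fun i => x i], Prog.step [] g (fun i x => x i) Prog.nil hg (fun i => Or.inr ⟨i, rfl⟩),
    le_refl _, Or.inl (by simp)⟩

/-- the function of one variable obtained from a gate by substituting functions of one variable -/
lemma CSE_sub1 (hCLP : CLP_stmt) {G : Set Gate} {g : Gate} (hg : g ∈ G) (φ : Fin g.1 → BF 1)
    (h : ∀ i, InCl G (φ i)) : InCl G (fun x => g.2 fun i => φ i x) :=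
  hCLP.2 G g.1 1 g.2 φ (CSE_gate hg) h

lemma CSE_bf1 (x : Fin 1 → Bool) : x = fun _ => x 0 := by
  funext i; fin_cases i; rfl

/-- a function of one variable is determined by its values -/
lemma CSE_ext1 {u v : BF 1} (h0 : u (fun _ => false) = v (fun _ => false))
    (h1 : u (fun _ => true) = v (fun _ => true)) : u = v := by
  funext x
  rw [CSE_bf1 x]
  cases x 0
  · exact h0
  · exact h1

/-- both constants and a non-monotone gate give negation -/
lemma CSE_not (hNMM : NMM_stmt) (hCLP : CLP_stmt) {G : Set Gate} (hM : ∃ g ∈ G, ¬ Mono g.2)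
    (hc0 : InCl G (fC false 1)) (hc1 : InCl G (fC true 1)) : InCl G fNot := by
  obtain ⟨g, hg, hm⟩ := hM
  obtain ⟨σ, h1, h2⟩ := hNMM g.1 g.2 hm
  have h3 : ∀ j : Fin 3, InCl G ((![fC true 1, fC false 1, fun x => x 0] : Fin 3 → BF 1) j) := by
    intro j
    fin_cases j
    · exact hc1
    · exact hc0
    · exact hCLP.1 G 1 0
  have h4 := CSE_sub1 hCLP hg (fun i => (![fC true 1, fC false 1, fun x => x 0] : Fin 3 → BF 1) (σ i))
    (fun i => h3 (σ i))
  have h5 : (fun x : Fin 1 → Bool => g.2 fun i => (![fC true 1, fC false 1, fun x => x 0] : Fin 3 → BF 1) (σ i) x)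
      = fNot := by
    apply CSE_ext1
    · have : (fun i => (![fC true 1, fC false 1, fun x => x 0] : Fin 3 → BF 1) (σ i) (fun _ => false)) =
        fun i => (![true, false, false] : Fin 3 → Bool) (σ i) := by
        funext i
        generalize σ i = j
        fin_cases j <;> rfl
      show g.2 (fun i => (![fC true 1, fC false 1, fun x => x 0] : Fin 3 → BF 1) (σ i) (fun _ => false)) = _
      rw [this, h1]; rfl
    · have : (fun i => (![fC true 1, fC false 1, fun x => x 0] : Fin 3 → BF 1) (σ i) (fun _ => true)) =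
        fun i => (![true, false, true] : Fin 3 → Bool) (σ i) := by
        funext i
        generalize σ i = j
        fin_cases j <;> rfl
      show g.2 (fun i => (![fC true 1, fC false 1, fun x => x 0] : Fin 3 → BF 1) (σ i) (fun _ => true)) = _
      rw [this, h2]; rfl
  rw [h5] at h4
  exact h4

/-- a gate whose value at the constant point `b` is `c` and the constant `b` give the constant `c` -/
lemma CSE_const (hCLP : CLP_stmt) {G : Set Gate} {g : Gate} (hg : g ∈ G) (b c : Bool)
    (hb : InCl G (fC b 1)) (hc : g.2 (fun _ => b) = c) : InCl G (fC c 1) := by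
  have h4 := CSE_sub1 hCLP hg (fun _ => fC b 1) (fun _ => hb)
  have h5 : (fun x : Fin 1 → Bool => g.2 fun _ => fC b 1 x) = fC c 1 := by
    funext x
    exact hc
  rw [h5] at h4
  exact h4

/-- the diagonal of a gate -/
lemma CSE_diag (hCLP : CLP_stmt) {G : Set Gate} {g : Gate} (hg : g ∈ G) :
    InCl G (fun x : Fin 1 → Bool => g.2 fun _ => x 0) :=
  CSE_sub1 hCLP hg (fun _ x => x 0) (fun _ => hCLP.1 G 1 0)

lemma CSE_diag_eq {g : Gate} (c d : Bool) (h0 : g.2 (fun _ => false) = c) (h1 : g.2 (fun _ => true) = d)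
    (u : BF 1) (hu0 : u (fun _ => false) = c) (hu1 : u (fun _ => true) = d) :
    (fun x : Fin 1 → Bool => g.2 fun _ => x 0) = u := by
  apply CSE_ext1
  · show g.2 (fun _ => false) = _
    rw [h0, hu0]
  · show g.2 (fun _ => true) = _
    rw [h1, hu1]

/-- duals of gates -/
lemma CSE_mem_dual (hDUA : DUA_stmt) {G : Set Gate} {g : Gate} (hg : g ∈ G) :
    (⟨g.1, dual g.2⟩ : Gate) ∈ dualB G := by
  show (⟨g.1, dual (dual g.2)⟩ : Gate) ∈ G
  rw [hDUA.1]
  exact hg

lemma CSE_incl_dual (hDUA : DUA_stmt) {G : Set Gate} {n : ℕ} (f : BF n) (h : InCl G f) : InCl (dualB G) (dual f) := by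
  obtain ⟨s, hs⟩ := h
  exact ⟨s, (hDUA.2.2.2.1 G n f s).2 hs⟩

theorem CSE (hNMI : NMI_stmt) (hSDM : SDM_stmt) (hIDM : IDM_stmt) (hT0C : T0C_stmt) (hALC : ALC_stmt)
    (hNMM : NMM_stmt) (hCLP : CLP_stmt) (hPRP : PRP_stmt) (hDUA : DUA_stmt) : CSE_stmt := by
  intro G hT hW
  -- unpack
  have hAff : ∃ g ∈ G, ¬ Affine g.2 := by
    by_contra h
    push Not at h
    exact hT (Or.inl h)
  have hMon : ∃ g ∈ G, ¬ Mono g.2 := by
    by_contra h
    push Not at h
    exact hW ⟨hT, Or.inl h⟩
  have hG1 : (∀ g ∈ G, Inter 2 g.2) → ∀ g ∈ G, Star g.2 := by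
    intro h
    by_contra h2
    exact hW ⟨hT, Or.inr (Or.inl ⟨2, le_refl _, h, h2⟩)⟩
  have hG2 : (∀ g ∈ dualB G, Inter 2 g.2) → ∀ g ∈ dualB G, Star g.2 := by
    intro h
    by_contra h2
    exact hW ⟨hT, Or.inr (Or.inr ⟨2, le_refl _, h, h2⟩)⟩
  have hAffD : ∃ g ∈ dualB G, ¬ Affine g.2 := by
    obtain ⟨g, hg, h⟩ := hAff
    exact ⟨_, CSE_mem_dual hDUA hg, fun h' => h (((hDUA.2.2.2.2.2.2 g.1 g.2).2.1).1 h')⟩
  have hMonD : ∃ g ∈ dualB G, ¬ Mono g.2 := by
    obtain ⟨g, hg, h⟩ := hMon
    exact ⟨_, CSE_mem_dual hDUA hg, fun h' => h (((hDUA.2.2.2.2.2.2 g.1 g.2).1).1 h')⟩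
  -- case (A)
  by_cases hI : ∀ g ∈ G, Inter 2 g.2
  · exact Or.inl ⟨hG1 hI, (hNMI G hI hMon).2⟩
  by_cases hID : ∀ g ∈ dualB G, Inter 2 g.2
  · exact Or.inr (Or.inl ⟨hG2 hID, (hNMI (dualB G) hID hMonD).2⟩)
  push Not at hI hID
  -- case (B)
  by_cases hSD : ∀ g ∈ G, SelfDual g.2
  · exact Or.inr (Or.inr (Or.inl ⟨hSD, hSDM G hSD hAff hMon⟩))
  push Not at hSD
  by_cases hId : ∀ g ∈ G, g.2 (fun _ => false) = false ∧ g.2 (fun _ => true) = true
  · obtain ⟨ha, ho⟩ := hIDM G hId hSD hI hID
    refine Or.inr (Or.inr (Or.inr (Or.inl ⟨hId, ha, ho, ?_⟩)))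
    obtain ⟨g, hg, hm⟩ := hMon
    obtain ⟨σ, h1, h2⟩ := hNMM g.1 g.2 hm
    exact ⟨fun x => g.2 fun i => x (σ i), hCLP.2 G g.1 3 g.2 (fun i x => x (σ i)) (CSE_gate hg)
      (fun i => hCLP.1 G 3 (σ i)), h1, h2⟩
  by_cases hN : InCl G fNot
  · -- both constants
    have hconst : ∃ c : Bool, InCl G (fC c 1) := by
      obtain ⟨g, hg, hs⟩ := hSD
      unfold SelfDual at hs
      push Not at hs
      obtain ⟨a, ha⟩ := hs
      have ha' : g.2 (fun i => !(a i)) = g.2 a := by
        revert ha
        cases g.2 (fun i => !(a i)) <;> cases g.2 a <;> simp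
      refine ⟨g.2 a, ?_⟩
      have h4 := CSE_sub1 hCLP hg (fun i => if a i = true then (fun x => x 0) else fNot)
        (fun i => by
          by_cases hi : a i = true
          · simp only [hi, if_true]
            exact hCLP.1 G 1 0
          · simp only [hi]
            exact hN)
      have h5 : (fun x : Fin 1 → Bool => g.2 fun i => (if a i = true then (fun x : Fin 1 → Bool => x 0) else fNot) x)
          = fC (g.2 a) 1 := by
        apply CSE_ext1
        · show g.2 (fun i => (if a i = true then (fun x : Fin 1 → Bool => x 0) else fNot) (fun _ => false)) = g.2 a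
          rw [← ha']
          refine congrArg g.2 (funext fun i => ?_)
          by_cases hi : a i = true
          · simp [hi]
          · simp [hi, fNot]
        · show g.2 (fun i => (if a i = true then (fun x : Fin 1 → Bool => x 0) else fNot) (fun _ => true)) = g.2 a
          refine congrArg g.2 (funext fun i => ?_)
          by_cases hi : a i = true
          · simp [hi]
          · simp [hi, fNot]
      rw [h5] at h4
      exact h4
    have hc0 : InCl G (fC false 1) := by
      obtain ⟨c, hc⟩ := hconst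
      cases c
      · exact hc
      · have := hCLP.2 G 1 1 fNot (fun _ => fC true 1) hN (fun _ => hc)
        exact this
    exact Or.inr (Or.inr (Or.inr (Or.inr (Or.inr (Or.inr ⟨hN, hc0, hALC G hN hc0 hAff⟩)))))
  · -- not both constants
    have hnb : ¬ (InCl G (fC false 1) ∧ InCl G (fC true 1)) := fun h => hN (CSE_not hNMM hCLP hMon h.1 h.2)
    have hone : InCl G (fC false 1) ∨ InCl G (fC true 1) := by
      push Not at hId
      obtain ⟨g, hg, hid⟩ := hId
      have hd := CSE_diag hCLP hg
      rcases h0 : g.2 (fun _ => false) with _ | _ <;> rcases h1 : g.2 (fun _ => true) with _ | _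
      · left
        rw [CSE_diag_eq false false h0 h1 (fC false 1) rfl rfl] at hd
        exact hd
      · exact absurd h1 (hid h0)
      · exfalso
        rw [CSE_diag_eq true false h0 h1 fNot rfl rfl] at hd
        exact hN hd
      · right
        rw [CSE_diag_eq true true h0 h1 (fC true 1) rfl rfl] at hd
        exact hd
    rcases hone with hc | hc
    · -- the constant 0
      have hp : ∀ g ∈ G, g.2 (fun _ => false) = false := by
        intro g hg
        by_contra h
        have h' : g.2 (fun _ => false) = true := by simpa using h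
        exact hnb ⟨hc, CSE_const hCLP hg false true hc h'⟩
      exact Or.inr (Or.inr (Or.inr (Or.inr (Or.inl ⟨hp, hT0C G hp hc hI hMon hAff⟩))))
    · -- the constant 1
      have hp : ∀ g ∈ G, g.2 (fun _ => true) = true := by
        intro g hg
        by_contra h
        have h' : g.2 (fun _ => true) = false := by simpa using h
        exact hnb ⟨CSE_const hCLP hg true false hc h', hc⟩
      have hpD : ∀ g ∈ dualB G, g.2 (fun _ => false) = false := by
        intro g hg
        have h1 := hp _ hg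
        have h2 : (!(g.2 fun _ => !true)) = true := h1
        simpa using h2
      have hcD : InCl (dualB G) (fC false 1) := by
        have := CSE_incl_dual hDUA _ hc
        exact this
      exact Or.inr (Or.inr (Or.inr (Or.inr (Or.inr (Or.inl ⟨hpD, hT0C (dualB G) hpD hcD hID hMonD hAffD⟩)))))

end Pool.Agent.PB
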