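import Pool.Agent.helper64.PB.SpecF

set_option autoImplicit false

namespace Pool.Agent.PB

open Finset Polynomial

lemma DEG_succAbove_le {w : ℕ} (j : Fin (w + 1)) (l : Fin w) : (j.succAbove l : ℕ) ≤ (l : ℕ) + 1 := by
  rcases lt_or_ge l.castSucc j with h | h
  · rw [Fin.succAbove_of_castSucc_lt _ _ h]
    simp
  · rw [Fin.succAbove_of_le_castSucc _ _ h]
    simp

lemma DEG_sum (w : ℕ) : (∑ i : Fin w, (i : ℕ)) + ∑ i : Fin w, ((i : ℕ) + 1) = w ^ 2 := by
  induction w with
  | zero => simp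
  | succ w ih =>
    rw [Fin.sum_univ_castSucc, Fin.sum_univ_castSucc]
    simp only [Fin.val_castSucc, Fin.val_last]
    nlinarith [ih]

theorem DEG : DEG_stmt := by
  intro K _ S c w hS j
  unfold hk
  have h1 : ((-1 : K[X]) ^ (w + (j : ℕ))).natDegree = 0 := by
    have h := natDegree_pow_le (p := (-1 : K[X])) (n := w + (j : ℕ))
    have h2 : (-1 : K[X]).natDegree = 0 := by
      rw [natDegree_neg, natDegree_one]
    rw [h2] at h
    omega
  refine natDegree_mul_le.trans ?_
  rw [h1, zero_add, Matrix.det_apply']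
  apply natDegree_sum_le_of_forall_le
  intro σ _
  refine natDegree_mul_le.trans ?_
  rw [natDegree_intCast, zero_add]
  refine (natDegree_prod_le _ _).trans ?_
  have h3 : ∀ i : Fin w, (Matrix.of (fun i l : Fin w => S ((i : ℕ) + (j.succAbove l : ℕ))) (σ i) i).natDegree
      ≤ c * ((σ i : ℕ) + ((i : ℕ) + 1)) := by
    intro i
    have h4 := DEG_succAbove_le j i
    have h5 : ((σ i : Fin w) : ℕ) < w := (σ i).2
    have h6 : (i : ℕ) < w := i.2
    refine (hS _ (by omega)).trans ?_
    exact Nat.mul_le_mul_left c (by omega)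
  refine (Finset.sum_le_sum fun i _ => h3 i).trans ?_
  rw [← Finset.mul_sum, Finset.sum_add_distrib]
  have h7 : ∑ i : Fin w, ((σ i : Fin w) : ℕ) = ∑ i : Fin w, (i : ℕ) := Equiv.sum_comp σ (fun i : Fin w => (i : ℕ))
  rw [h7, DEG_sum]

end Pool.Agent.PB
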