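import Pool.Agent.helper64.PB.SpecF

set_option autoImplicit false

namespace Pool.Agent.PB

open Finset

/-- Booleans as elements of `F_2` -/
def GS1_f (b : Bool) : ZMod 2 := if b = true then 1 else 0

lemma GS1_f_inj {a b : Bool} (h : GS1_f a = GS1_f b) : a = b := by
  revert h; cases a <;> cases b <;> decide

lemma GS1_f_xor (a b : Bool) : GS1_f (xor a b) = GS1_f a + GS1_f b := by
  cases a <;> cases b <;> decide

lemma GS1_f_par {N : ℕ} (f : Fin N → Bool) : GS1_f (par f) = ∑ j, GS1_f (f j) := by
  have h1 : (∑ j, GS1_f (f j)) = (((univ.filter fun j => f j = true).card : ℕ) : ZMod 2) := by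
    unfold GS1_f
    rw [Finset.sum_boole]
  rw [h1]
  unfold par GS1_f
  by_cases h : Odd (univ.filter fun j => f j = true).card
  · simp only [h, decide_true, if_true]
    obtain ⟨k, hk⟩ := h
    rw [hk]
    have h2 : (2 : ZMod 2) = 0 := by decide
    push_cast
    rw [h2]
    ring
  · simp only [h, decide_false, Bool.false_eq_true, if_false]
    rw [Nat.not_odd_iff_even] at h
    obtain ⟨k, hk⟩ := h
    rw [hk]
    have h2 : (2 : ZMod 2) = 0 := by decide
    push_cast
    have : (k : ZMod 2) + k = 2 * k := by ring
    rw [this, h2]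
    ring

lemma GS1_par_xor {N : ℕ} (f g : Fin N → Bool) : par (fun j => xor (f j) (g j)) = xor (par f) (par g) := by
  apply GS1_f_inj
  rw [GS1_f_par, GS1_f_xor, GS1_f_par, GS1_f_par, ← Finset.sum_add_distrib]
  exact Finset.sum_congr rfl fun j _ => GS1_f_xor _ _

lemma GS1_par_const {N : ℕ} (c : Bool) (f : Fin N → Bool) : par (fun j => c && f j) = (c && par f) := by
  cases c
  · simp [par]
  · simp

lemma GS1_par_single {N : ℕ} (j0 : Fin N) (c : Bool) : par (fun j => decide (j = j0) && c) = c := by
  apply GS1_f_inj
  rw [GS1_f_par, Finset.sum_eq_single j0]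
  · simp
  · intro b _ hb
    simp [hb, GS1_f]
  · intro h
    exact absurd (Finset.mem_univ _) h

/-- the pivot -/
lemma GS1_piv {N : ℕ} (r : Fin N → Bool) (h : ∃ j, r j = true) :
    ∃ j0, r j0 = true ∧ ∀ j, piv r j = true ↔ j = j0 := by
  classical
  have hne : (univ.filter fun j => r j = true).Nonempty := by
    obtain ⟨j, hj⟩ := h
    exact ⟨j, by simp [hj]⟩
  have hmem := Finset.min'_mem _ hne
  generalize hj0 : (univ.filter fun j => r j = true).min' hne = j0 at hmem
  have hr : r j0 = true := by simpa using hmem
  have hmin : ∀ j, r j = true → j0 ≤ j := by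
    intro j hj
    rw [← hj0]
    exact Finset.min'_le _ _ (by simp [hj])
  refine ⟨j0, hr, fun j => ⟨fun hp => ?_, fun hp => ?_⟩⟩
  · unfold piv at hp
    simp only [Bool.and_eq_true, decide_eq_true_eq] at hp
    obtain ⟨h1, h2⟩ := hp
    rcases lt_or_eq_of_le (hmin j h1) with h3 | h3
    · rw [h2 j0 h3] at hr
      exact absurd hr (by simp)
    · exact h3.symm
  · subst hp
    unfold piv
    simp only [Bool.and_eq_true, decide_eq_true_eq]
    refine ⟨hr, fun j' hj' => ?_⟩
    by_contra h3
    have h4 : r j' = true := by simpa using h3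
    exact absurd (hmin j' h4) (not_le.2 hj')

lemma GS1_pe {N : ℕ} (r a : Fin N → Bool) (j0 : Fin N) (h : ∀ j, piv r j = true ↔ j = j0) : pe r a = a j0 := by
  unfold pe
  have : (∃ j, piv r j = true ∧ a j = true) ↔ a j0 = true := by
    constructor
    · rintro ⟨j, h1, h2⟩
      rw [(h j).1 h1] at h2
      exact h2
    · intro h1
      exact ⟨j0, (h j0).2 rfl, h1⟩
  rcases h2 : a j0 with _ | _
  · rw [h2] at this
    exact decide_eq_false (fun h3 => absurd (this.1 h3) (by simp))
  · rw [h2] at this
    exact decide_eq_true (this.2 rfl)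

lemma GS1_cancel (x y p : Bool) (h : xor x p = xor y p) : x = y := by
  revert h
  cases x <;> cases y <;> cases p <;> simp

theorem GS1 : GS1_stmt := by
  intro M N A b
  -- the parity of a reduced row
  have hred : ∀ (v : Fin N → Bool) (i : Fin M) (p : Bool),
      par (fun j => (xor (A i.succ j) (p && A 0 j)) && v j) =
        xor (par fun j => A i.succ j && v j) (p && par fun j => A 0 j && v j) := by
    intro v i p
    rw [← GS1_par_const, ← GS1_par_xor]
    congr 1
    funext j
    cases A i.succ j <;> cases p <;> cases A 0 j <;> cases v j <;> rfl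
  by_cases h0 : ∃ j, A 0 j = true
  · obtain ⟨j0, hj0, hpiv⟩ := GS1_piv (A 0) h0
    have hpe : ∀ i : Fin M, pe (A 0) (A i.succ) = A i.succ j0 := fun i => GS1_pe _ _ j0 hpiv
    simp only [hpe]
    constructor
    · rintro ⟨v, hv⟩
      refine ⟨Or.inl h0, v, fun i => ?_⟩
      rw [hred v i (A i.succ j0), hv, hv]
    · rintro ⟨_, v', hv'⟩
      have hδ : ∃ δ : Bool, δ = xor (par fun j => A 0 j && v' j) (b 0) := ⟨_, rfl⟩
      obtain ⟨δ, hδ⟩ := hδ
      have hvdef : ∃ v : Fin N → Bool, ∀ j, v j = xor (v' j) (decide (j = j0) && δ) := ⟨_, fun _ => rfl⟩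
      obtain ⟨v, hv⟩ := hvdef
      have h1 : (par fun j => A 0 j && v j) = b 0 := by
        have e : (fun j => A 0 j && v j) = fun j => xor (A 0 j && v' j) (decide (j = j0) && δ) := by
          funext j
          rw [hv j]
          by_cases hj : j = j0
          · subst hj
            simp [hj0]
          · simp [hj]
        rw [e, GS1_par_xor, GS1_par_single, hδ]
        cases (par fun j => A 0 j && v' j) <;> cases b 0 <;> rfl
      have h2 : ∀ i : Fin M, (par fun j => (xor (A i.succ j) (A i.succ j0 && A 0 j)) && v j) =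
          par fun j => (xor (A i.succ j) (A i.succ j0 && A 0 j)) && v' j := by
        intro i
        congr 1
        funext j
        rw [hv j]
        by_cases hj : j = j0
        · subst hj
          simp [hj0]
        · simp [hj]
      refine ⟨v, fun i => ?_⟩
      refine Fin.cases h1 (fun i => ?_) i
      have h3 := hv' i
      have h4 : (par fun j => (xor (A i.succ j) (A i.succ j0 && A 0 j)) && v' j) =
          xor (b i.succ) (A i.succ j0 && b 0) := h3
      rw [← h2 i, hred v i (A i.succ j0), h1] at h4
      exact GS1_cancel _ _ _ h4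
  · have hz : ∀ j, A 0 j = false := by
      intro j
      by_contra h
      exact h0 ⟨j, by simpa using h⟩
    have hpe : ∀ i : Fin M, pe (A 0) (A i.succ) = false := by
      intro i
      unfold pe piv
      simp [hz]
    simp only [hpe, Bool.false_and, Bool.xor_false]
    have hpar0 : ∀ v : Fin N → Bool, (par fun j => A 0 j && v j) = false := by
      intro v
      have : (fun j => A 0 j && v j) = fun j => false && v j := by
        funext j
        rw [hz j]
      rw [this, GS1_par_const]
      rfl
    constructor
    · rintro ⟨v, hv⟩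
      refine ⟨Or.inr ?_, v, fun i => hv i.succ⟩
      rw [← hv 0]
      exact hpar0 v
    · rintro ⟨h1, v, hv⟩
      have hb : b 0 = false := by
        rcases h1 with h1 | h1
        · exact absurd h1 h0
        · exact h1
      refine ⟨v, fun i => ?_⟩
      refine Fin.cases ?_ (fun i => hv i) i
      rw [hb]
      exact hpar0 v

end Pool.Agent.PB
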