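import Pool.Agent.helper64.PB.SpecB

set_option autoImplicit false

namespace Pool.Agent.PB

lemma XNA_gate {G : Set Gate} {g : Gate} (hg : g ∈ G) : InCl G g.2 :=
  ⟨1, [fun x => g.2 fun i => x i], Prog.step [] g (fun i x => x i) Prog.nil hg (fun i => Or.inr ⟨i, rfl⟩),
    le_refl _, Or.inl (by simp)⟩

lemma XNA_bool (a b c A : Bool) :
    ((xor a (xor b c)) && A) = xor (a && A) (xor (b && A) (c && A)) := by
  revert a b c A; decide

lemma XNA_bool9 (a b c d e f g h i : Bool) :
    xor (xor a (xor b c)) (xor (xor d (xor e f)) (xor g (xor h i))) =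
      xor (xor a (xor d g)) (xor (xor b (xor e h)) (xor c (xor f i))) := by
  revert a b c d e f g h i; decide

lemma XNA_vec (x : Fin 3 → Bool) : x = ![x 0, x 1, x 2] := by
  funext i
  fin_cases i <;> rfl

lemma XNA_aff (F : BF 3) (h0 : F ![false, false, false] = false)
    (h1 : F ![true, true, false] = xor (F ![true, false, false]) (F ![false, true, false]))
    (h2 : F ![true, false, true] = xor (F ![true, false, false]) (F ![false, false, true]))
    (h3 : F ![false, true, true] = xor (F ![false, true, false]) (F ![false, false, true]))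
    (h4 : F ![true, true, true] = xor (F ![true, false, false]) (F ![false, true, true])) : Affine F := by
  have key : ∀ a b c : Bool, F ![a, b, c] = xor (a && F ![true, false, false])
      (xor (b && F ![false, true, false]) (c && F ![false, false, true])) := by
    intro a b c
    cases a <;> cases b <;> cases c <;> simp [h0, h1, h2, h3, h4]
  have key' : ∀ x : Fin 3 → Bool, F x = xor (x 0 && F ![true, false, false])
      (xor (x 1 && F ![false, true, false]) (x 2 && F ![false, false, true])) := by
    intro x
    conv_lhs => rw [XNA_vec x]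
    exact key _ _ _
  intro x y z
  rw [key' (fun i => xor (x i) (xor (y i) (z i))), key' x, key' y, key' z]
  simp only [XNA_bool]
  exact XNA_bool9 _ _ _ _ _ _ _ _ _

/-- from a function of two variables with second difference 1 -/
lemma XNA_two (hCLP : CLP_stmt) (G : Set Gate) (hX : InCl G fXor) (hZ : InCl G (fC false 2)) (H : BF 2)
    (hH : InCl G H) (h0 : H ![false, false] = false)
    (h1 : H ![true, true] ≠ xor (H ![true, false]) (H ![false, true])) : InCl G fAnd := by
  have hv : ∀ j : Fin 2, InCl G (fun x : Fin 2 → Bool => x j) := fun j => hCLP.1 G 2 j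
  have hx2 : ∀ u v : BF 2, InCl G u → InCl G v → InCl G (fun x => xor (u x) (v x)) := by
    intro u v hu hv'
    have := hCLP.2 G 2 2 fXor ![u, v] hX (by intro i; fin_cases i <;> [exact hu; exact hv'])
    exact this
  -- the linear part
  have hl : ∀ (c : Bool) (j : Fin 2), InCl G (fun x : Fin 2 → Bool => c && x j) := by
    intro c j
    cases c
    · have : (fun x : Fin 2 → Bool => false && x j) = fC false 2 := by funext x; simp [fC]
      rw [this]; exact hZ
    · have : (fun x : Fin 2 → Bool => true && x j) = fun x => x j := by funext x; simp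
      rw [this]; exact hv j
  have hfin := hx2 _ _ hH (hx2 _ _ (hl (H ![true, false]) 0) (hl (H ![false, true]) 1))
  have heq : fAnd = fun x : Fin 2 → Bool => xor (H x) (xor (H ![true, false] && x 0) (H ![false, true] && x 1)) := by
    funext x
    have hx : x = ![x 0, x 1] := by funext i; fin_cases i <;> rfl
    have key : ∀ a b : Bool, (a && b) = xor (H ![a, b]) (xor (H ![true, false] && a) (H ![false, true] && b)) := by
      intro a b
      revert h0 h1
      cases a <;> cases b <;> generalize H ![false, false] = p <;> generalize H ![true, false] = q <;>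
        generalize H ![false, true] = r <;> generalize H ![true, true] = s <;> revert p q r s <;> decide
    have := key (x 0) (x 1)
    rw [← hx] at this
    exact this
  rw [heq]
  exact hfin

theorem XNA (hNLM : NLM_stmt) (hCLP : CLP_stmt) (hPRP : PRP_stmt) : XNA_stmt := by
  intro G hG0 hX hNA
  obtain ⟨g, hg, hna⟩ := hNA
  obtain ⟨σ, hσ⟩ := hNLM g.1 g.2 hna
  have hF : InCl G (fun y : Fin 3 → Bool => g.2 fun i => y (σ i)) :=
    hCLP.2 G g.1 3 g.2 (fun i y => y (σ i)) (XNA_gate hg) (fun i => hCLP.1 G 3 (σ i))
  generalize hFF : (fun y : Fin 3 → Bool => g.2 fun i => y (σ i)) = F at hσ hF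
  have h0 : F ![false, false, false] = false := by
    have := (hPRP G 3 F hF).2.2.2.2.2.2.2.1 hG0
    have hv : (![false, false, false] : Fin 3 → Bool) = fun _ => false := by
      funext i; fin_cases i <;> rfl
    rw [hv]; exact this
  have hv : ∀ j : Fin 2, InCl G (fun x : Fin 2 → Bool => x j) := fun j => hCLP.1 G 2 j
  have hZ : InCl G (fC false 2) := by
    have := hCLP.2 G 2 2 fXor ![fun x => x 0, fun x => x 0] hX (by intro i; fin_cases i <;> exact hv 0)
    have e : (fun x : Fin 2 → Bool => fXor fun i => (![fun x => x 0, fun x => x 0] : Fin 2 → BF 2) i x) = fC false 2 := by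
      funext x
      simp [fXor, fC]
    rw [e] at this
    exact this
  have hsub : ∀ u v w : BF 2, InCl G u → InCl G v → InCl G w → InCl G (fun x => F ![u x, v x, w x]) := by
    intro u v w hu hv' hw
    have := hCLP.2 G 3 2 F ![u, v, w] hF (by intro i; fin_cases i <;> [exact hu; exact hv'; exact hw])
    have e : (fun x : Fin 2 → Bool => F fun i => (![u, v, w] : Fin 3 → BF 2) i x) = fun x => F ![u x, v x, w x] := by
      funext x
      congr 1
      funext i; fin_cases i <;> rfl
    rw [e] at this
    exact this
  by_contra hcon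
  apply hσ
  apply XNA_aff F h0
  · by_contra hne
    exact hcon (XNA_two hCLP G hX hZ (fun x => F ![x 0, x 1, fC false 2 x])
      (hsub _ _ _ (hv 0) (hv 1) hZ) (by simpa [fC] using h0) (by simpa [fC] using hne))
  · by_contra hne
    exact hcon (XNA_two hCLP G hX hZ (fun x => F ![x 0, fC false 2 x, x 1])
      (hsub _ _ _ (hv 0) hZ (hv 1)) (by simpa [fC] using h0) (by simpa [fC] using hne))
  · by_contra hne
    exact hcon (XNA_two hCLP G hX hZ (fun x => F ![fC false 2 x, x 0, x 1])
      (hsub _ _ _ hZ (hv 0) (hv 1)) (by simpa [fC] using h0) (by simpa [fC] using hne))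
  · by_contra hne
    exact hcon (XNA_two hCLP G hX hZ (fun x => F ![x 0, x 1, x 1])
      (hsub _ _ _ (hv 0) (hv 1) (hv 1)) (by simpa using h0) (by simpa using hne))

end Pool.Agent.PB
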